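import Mathlib
import Pool.Prelude.Def_F_c31e40fa
import Pool.Agent.Y298.CE.Fin

set_option autoImplicit false

open MeasureTheory Filter Metric

namespace Pool.Agent.Results.MP_c35c17_an.ColletEckmannDensity

/-- The quadratic polynomial `z ^ 2 + c`. -/
def f (c : ℂ) : ℂ → ℂ := fun z => z ^ 2 + c

/-- The Collet-Eckmann condition with explicit constants: `c` lies in the Mandelbrot set and the
derivatives of the iterates of `f c` at the critical value `c` grow at least like `lam ^ n / C₁`. -/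
def ColletEckmann (C₁ lam : ℝ) (c : ℂ) : Prop :=
  c ∈ N62a1eb23.multibrotSet 2 ∧ ∀ n : ℕ, lam ^ n ≤ C₁ * ‖deriv ((f c)^[n]) c‖

/-- The parameter `c` is near to superattracting parameters and to escaping parameters, and its filled
Julia set is small, in terms of the distance between `c` and `c₀`. -/
def Close (C σ : ℝ) (c₀ c : ℂ) : Prop :=
  (∃ c' : ℂ, ‖c' - c‖ ≤ C * ‖c - c₀‖ ^ σ ∧ ∃ p : ℕ, 1 ≤ p ∧ (f c')^[p] 0 = 0 ∧
    N62a1eb23.IsAttractingCycle (f c') p 0) ∧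
  (∃ c' : ℂ, ‖c' - c‖ ≤ C * ‖c - c₀‖ ^ σ ∧ c' ∉ N62a1eb23.multibrotSet 2) ∧
  volume {z : ℂ | ¬ Tendsto (fun k => (f c)^[k] z) atTop (Bornology.cobounded ℂ)} ≤
    ENNReal.ofReal (C * ‖c - c₀‖ ^ σ)

/-- Superlinear density of hyperbolicity at the Collet-Eckmann parameters of the Mandelbrot set. -/
theorem result :
    (∀ C₁ lam σ : ℝ, 1 ≤ C₁ → 1 < lam → 0 ≤ σ → σ * (1 - Real.log lam / Real.log 16) < 1 →
      ∃ C : ℝ, 0 < C ∧ ∀ c₀ : ℂ, ColletEckmann C₁ lam c₀ →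
        ∀ c ∈ N62a1eb23.multibrotSet 2, c ≠ c₀ → Close C σ c₀ c) ∧
    (∀ C₁ lam C₂ β σ : ℝ, 1 ≤ C₁ → 1 < lam → 0 ≤ β → 0 ≤ σ → σ * (1 + β) < 2 →
      ∃ C : ℝ, 0 < C ∧ ∀ c₀ : ℂ, ColletEckmann C₁ lam c₀ →
        (∀ n : ℕ, 1 ≤ C₂ * (‖(f c₀)^[n] c₀‖ * ‖deriv ((f c₀)^[n]) c₀‖ ^ β)) →
        ∀ c ∈ N62a1eb23.multibrotSet 2, c ≠ c₀ → Close C σ c₀ c) := by
  have hgen : ∀ C₁ lam C₂ β σ : ℝ, 1 ≤ C₁ → 1 < lam → 0 ≤ β → 0 ≤ σ → σ * (1 + β) < 2 →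
      ∃ C : ℝ, 0 < C ∧ ∀ c₀ : ℂ, ColletEckmann C₁ lam c₀ →
        (∀ n : ℕ, 1 ≤ C₂ * (‖(f c₀)^[n] c₀‖ * ‖deriv ((f c₀)^[n]) c₀‖ ^ β)) →
        ∀ c ∈ N62a1eb23.multibrotSet 2, c ≠ c₀ → Close C σ c₀ c := by
    intro C₁ lam C₂ β σ hC₁ hlam hβ hσ0 hσ
    by_cases hC₂ : 0 < C₂
    · obtain ⟨C, hC, H⟩ := Pool.Agent.Y298.SH.CE.upper C₁ lam hC₂ hβ hσ0 hσ
      refine ⟨C, hC, fun c₀ h₀ hrec c hc hcc => ?_⟩
      obtain ⟨h1, h2, h3, -⟩ := H c₀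
        (Pool.Agent.Y298.SH.CE.cep_of_mem hC₁ hlam h₀.1 h₀.2) hrec c hc hcc
      exact ⟨h2, h3, h1⟩
    · refine ⟨1, one_pos, fun c₀ h₀ hrec c hc hcc => ?_⟩
      exfalso
      have h1 := hrec 0
      have h2 : 0 ≤ ‖(f c₀)^[0] c₀‖ * ‖deriv ((f c₀)^[0]) c₀‖ ^ β := by positivity
      nlinarith [not_lt.mp hC₂]
  refine ⟨?_, hgen⟩
  intro C₁ lam σ hC₁ hlam hσ0 hσ
  have hl4 : 0 < Real.log 4 := Real.log_pos (by norm_num)
  have h16 : Real.log 16 = 2 * Real.log 4 := by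
    rw [show (16 : ℝ) = 4 ^ 2 by norm_num, Real.log_pow]
    norm_num
  by_cases h4 : lam ≤ 4
  · obtain ⟨C, hC, H⟩ := hgen C₁ lam (2 * C₁) (1 - Real.log lam / Real.log 4) σ hC₁ hlam (by
      have h5 : Real.log lam ≤ Real.log 4 := Real.log_le_log (by linarith) h4
      rw [sub_nonneg, div_le_one hl4]
      exact h5) hσ0 (by
      have h5 : 1 + (1 - Real.log lam / Real.log 4) = 2 * (1 - Real.log lam / Real.log 16) := by
        rw [h16]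
        field_simp
        ring
      rw [h5]
      linarith)
    refine ⟨C, hC, fun c₀ h₀ c hc hcc => H c₀ h₀ ?_ c hc hcc⟩
    exact (Pool.Agent.Y298.SH.CE.cep_of_mem hC₁ hlam h₀.1 h₀.2).recB
  · refine ⟨1, one_pos, fun c₀ h₀ c hc hcc => ?_⟩
    exact absurd (Pool.Agent.Y298.SH.CE.cep_of_mem hC₁ hlam h₀.1 h₀.2).lam_le h4

end Pool.Agent.Results.MP_c35c17_an.ColletEckmannDensity
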