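import Mathlib
import Pool.Prelude.Def_F_c31e40fa
import Pool.Agent.Y298.CA.Cor

set_option autoImplicit false

open MeasureTheory Filter Metric

namespace Pool.Agent.Results.MP_c35c17_an.ColletEckmannSharpArea

/-- The polynomial `z ^ 2 + c`. -/
def f (c : ℂ) : ℂ → ℂ := fun z => z ^ 2 + c

/-- The Collet-Eckmann condition with explicit constants: `c` lies in the Mandelbrot set and the
derivatives of the iterates of `f c` at the critical value `c` grow at least like `lam ^ n / C₁`. -/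
def ColletEckmann (C₁ lam : ℝ) (c : ℂ) : Prop :=
  c ∈ N62a1eb23.multibrotSet 2 ∧ ∀ n : ℕ, lam ^ n ≤ C₁ * ‖deriv ((f c)^[n]) c‖

/-- The area of the Mandelbrot set near its Collet-Eckmann parameters. -/
theorem result :
    (∀ C₁ lam E : ℝ, 1 ≤ C₁ → 1 < lam → 0 ≤ E →
      E * (1 - Real.log lam / Real.log 16) < 2 →
      ∃ C : ℝ, 0 < C ∧ ∀ c₀ : ℂ, ColletEckmann C₁ lam c₀ → ∀ r : ℝ, 0 < r →
        volume (N62a1eb23.multibrotSet 2 ∩ ball c₀ r) ≤ ENNReal.ofReal (C * r ^ E)) ∧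
    (∀ C₁ lam C₂ β E : ℝ, 1 ≤ C₁ → 1 < lam → 0 ≤ β → 0 ≤ E → E * (1 + β) < 4 →
      ∃ C : ℝ, 0 < C ∧ ∀ c₀ : ℂ, ColletEckmann C₁ lam c₀ →
        (∀ n : ℕ, 1 ≤ C₂ * (‖(f c₀)^[n] c₀‖ * ‖deriv ((f c₀)^[n]) c₀‖ ^ β)) →
        ∀ r : ℝ, 0 < r →
          volume (N62a1eb23.multibrotSet 2 ∩ ball c₀ r) ≤ ENNReal.ofReal (C * r ^ E)) := by
  have h := Pool.Agent.Y298.CA.area_CE (d := 2) le_rfl
  have e1 : Real.log 16 = 2 * Real.log (2 * 2) := by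
    rw [show (16 : ℝ) = (2 * 2) ^ 2 by norm_num, Real.log_pow]
    norm_num
  refine ⟨fun C₁ lam E h1 h2 h3 h4 => ?_, fun C₁ lam C₂ β E h1 h2 h3 h4 h5 => ?_⟩
  · obtain ⟨C, hC, H⟩ := h.1 C₁ lam E h1 h2 h3 (by
      rw [e1] at h4
      exact_mod_cast h4)
    exact ⟨C, hC, fun c₀ h₀ r hr => H c₀ h₀.1 h₀.2 r hr⟩
  · obtain ⟨C, hC, H⟩ := h.2 C₁ lam C₂ β E h1 h2 h3 h4 (by
      push_cast
      norm_num
      exact h5)
    exact ⟨C, hC, fun c₀ h₀ hrec r hr => H c₀ h₀.1 h₀.2 hrec r hr⟩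

end Pool.Agent.Results.MP_c35c17_an.ColletEckmannSharpArea
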