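import Mathlib
import Pool.Prelude.Def_F_c31e40fa
import Pool.Agent.Y298.CA.ScaAll

set_option autoImplicit false

open MeasureTheory Filter Metric Topology Complex

namespace Pool.Agent.Results.MP_c35c17_an.ExactScaling

open Pool.Agent.H713R2 (IsExteriorMap)

/-- The polynomial `z ^ d + c`. -/
def f (d : ℕ) (c : ℂ) : ℂ → ℂ := fun z => z ^ d + c

/-- The parameters of the Multibrot set whose polynomial has an attracting cycle. -/
def hyperbolic (d : ℕ) : Set ℂ := {c | c ∈ N62a1eb23.multibrotSet d ∧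
  ∃ (m : ℕ) (z : ℂ), N62a1eb23.IsAttractingCycle (f d c) m z}

/-- The inradius of a plane set: the supremum of the radii of the discs contained in it. -/
noncomputable def inradius (S : Set ℂ) : ℝ := sSup {ρ : ℝ | 0 ≤ ρ ∧ ∃ c : ℂ, ball c ρ ⊆ S}

/-- `F r` is `r ^ (a + o(1))` as `r` tends to zero. -/
def HasExponent (F : ℝ → ℝ) (a : ℝ) : Prop :=
  Tendsto (fun r => Real.log (F r) / Real.log r) (𝓝[>] 0) (𝓝 a)

/-- The exact scaling of the Multibrot set and of its hyperbolic parameters near `c₀`. -/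
def Scaling (d : ℕ) (c₀ : ℂ) : Prop :=
  HasExponent (fun r => (volume (N62a1eb23.multibrotSet d ∩ ball c₀ r)).toReal) (2 * d / (d - 1)) ∧
  HasExponent (fun r => (volume (hyperbolic d ∩ ball c₀ r)).toReal) (2 * d / (d - 1)) ∧
  HasExponent (fun r => inradius (N62a1eb23.multibrotSet d ∩ ball c₀ r)) (d / (d - 1)) ∧
  HasExponent (fun r => inradius (hyperbolic d ∩ ball c₀ r)) (d / (d - 1)) ∧
  ∀ σ : ℝ, 0 ≤ σ → σ < d / (d - 1) → ∃ C : ℝ, 0 < C ∧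
    ∀ c ∈ N62a1eb23.multibrotSet d, c ≠ c₀ →
      (∃ c' ∈ hyperbolic d, ‖c' - c‖ ≤ C * ‖c - c₀‖ ^ σ) ∧
      ∃ c' ∉ N62a1eb23.multibrotSet d, ‖c' - c‖ ≤ C * ‖c - c₀‖ ^ σ

/-- Exact scaling of the Multibrot sets at the parameters whose critical value has a positive
Lyapunov exponent, in particular at harmonic-almost every boundary point. -/
theorem result (d : ℕ) (hd : 2 ≤ d) :
    (∀ (χ : ℝ) (c₀ : ℂ), 0 < χ → c₀ ∈ N62a1eb23.multibrotSet d →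
      Tendsto (fun n : ℕ => Real.log ‖deriv ((f d c₀)^[n]) c₀‖ / n) atTop (𝓝 χ) → Scaling d c₀) ∧
    (∃ ψ : ℂ → ℂ, IsExteriorMap (N62a1eb23.multibrotSet d) ψ) ∧
    ∀ ψ : ℂ → ℂ, IsExteriorMap (N62a1eb23.multibrotSet d) ψ →
      ∀ᵐ θ : ℝ, ∃ c₀ ∈ frontier (N62a1eb23.multibrotSet d),
        Tendsto (fun r : ℝ => ψ (r * exp (θ * I))) (𝓝[>] 1) (𝓝 c₀) ∧
        Tendsto (fun n : ℕ => Real.log ‖deriv ((f d c₀)^[n]) c₀‖ / n) atTop (𝓝 (Real.log d)) ∧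
        Scaling d c₀ := by
  have key : ∀ (χ : ℝ) (c₀ : ℂ), 0 < χ → c₀ ∈ N62a1eb23.multibrotSet d →
      Tendsto (fun n : ℕ => Real.log ‖deriv ((f d c₀)^[n]) c₀‖ / n) atTop (𝓝 χ) →
      Scaling d c₀ := by
    intro χ c₀ hχ hc₀ hlim
    have h := Pool.Agent.Y298.CA.scal_all hd ⟨hχ, hc₀, hlim⟩
    refine ⟨h.areaM, h.areaH, h.inM, h.inH, ?_⟩
    intro σ hσ0 hσ
    obtain ⟨C, hC, H⟩ := h.dens σ hσ0 hσ
    refine ⟨C, hC, fun c hc hcc => ?_⟩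
    obtain ⟨⟨c', h1, p, hp, h2, h3⟩, c'', h4, h5⟩ := H c hc hcc
    refine ⟨⟨c', ⟨?_, p, 0, h3⟩, h1⟩, c'', h5, h4⟩
    rw [Pool.Agent.H712R2.mem_multibrot_iff hd]
    exact Pool.Agent.Y298.CA.bd_of_centre hd hp h2
  refine ⟨key, ?_⟩
  obtain ⟨β, hβ⟩ := Pool.Agent.H713R2.exists_beta (d := d) hd
  refine ⟨⟨_, Pool.Agent.H713R2.exteriorMap_of_beta hβ⟩, ?_⟩
  intro ψ hψ
  filter_upwards [Pool.Agent.Y272.TY.ae_neg' (Pool.Agent.Y272.TY.typical_all hd hβ)] with θ hθ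
  obtain ⟨c₀, A, R, h⟩ := hθ
  obtain ⟨h1, h2, h3⟩ := Pool.Agent.Y298.CA.lyap_of_typ hd hβ h
  exact ⟨c₀, h.frontier hd hβ, h.tendsto_psi hβ hψ, h3, key _ c₀ h1 h2 h3⟩

end Pool.Agent.Results.MP_c35c17_an.ExactScaling
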