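import Mathlib
import Pool.Prelude.Def_F_c31e40fa
import Pool.Agent.Y334.ST.UniS

/-!
# Non-hyperbolic points of Multibrot sets are unstable under periodic perturbations

Q1 for the exponent `d` says that every non-hyperbolic point of the Multibrot set `M_d` is a
boundary point: arbitrarily small constant perturbations of the parameter `c` make the critical
orbit escape. We prove that this is the case for perturbations of period `n` and of size
`C * log n / n`, for all `n ≥ 2` with `C` depending only on `d`. The same is proved for all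
sequences of parameters of period `n`, and, with arbitrarily small perturbations, for the maps
`(x, z) ↦ (T x, z ^ d + c x)` over systems `T` without periodic points.
-/

set_option autoImplicit false

open Filter Topology

namespace Pool.Agent.Results.MP_c35c17_an.PeriodicInstability

/-- The parameters `c` for which `z ^ d + c` has an attracting cycle. -/
def attracting (d : ℕ) : Set ℂ :=
  {c | ∃ m z, N62a1eb23.IsAttractingCycle (fun z => z ^ d + c) m z}

/-- The orbit of the critical point `0` if the parameter `s k` is used at the time `k`. -/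
noncomputable def orbit (d : ℕ) (s : ℕ → ℂ) : ℕ → ℂ
  | 0 => 0
  | k + 1 => orbit d s k ^ d + s k

/-- The fibre iterates of `(x, z) ↦ (T x, z ^ d + c x)`. -/
noncomputable def fibre {B : Type} (T : B → B) (d : ℕ) (c : B → ℂ) : ℕ → B → ℂ → ℂ
  | 0, _, z => z
  | k + 1, x, z => fibre T d c k x z ^ d + c (T^[k] x)

/-- The orbit of the critical point `0` of the fibre over `x` escapes to infinity. -/
def Escapes {B : Type} (T : B → B) (d : ℕ) (c : B → ℂ) (x : B) : Prop :=
  Tendsto (fun k : ℕ => ‖fibre T d c k x 0‖) atTop atTop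

/-- The Multibrot set over `T`: the functions `c` for which no critical orbit escapes. -/
def Multibrot {B : Type} (T : B → B) (d : ℕ) : Set (B → ℂ) := {c | ∀ x, ¬ Escapes T d c x}

/-- The rotation `i ↦ i + 1` of the cyclic group of order `n`. -/
def rot (n : ℕ) : ZMod n → ZMod n := fun i => i + 1

/-- The composition `(z ^ d + c (i + n - 1)) ∘ ... ∘ (z ^ d + c (i + 1)) ∘ (z ^ d + c i)`, a self-map of
the fibre over `i`. -/
noncomputable def turn (d : ℕ) {n : ℕ} (c : ZMod n → ℂ) (i : ZMod n) : ℂ → ℂ :=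
  fibre (rot n) d c n i

/-- Hyperbolicity of a cyclic sequence: for each `i`, the orbit of the critical point `0` of the fibre
over `i` escapes, or it is attracted by an attracting cycle of the composition `turn d c i`. -/
def HyperbolicFold (d : ℕ) {n : ℕ} (c : ZMod n → ℂ) : Prop :=
  ∀ i, Escapes (rot n) d c i ∨ ∃ m z, N62a1eb23.IsAttractingCycle (turn d c i) m z ∧
    Tendsto (fun k : ℕ => (turn d c i)^[m * k] 0) atTop (𝓝 z)

/-- The post-critical set: the forward orbits of all critical values. -/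
def postCritical {B : Type} (T : B → B) (d : ℕ) (c : B → ℂ) : Set (B × ℂ) :=
  {p | ∃ y k, 1 ≤ k ∧ p = (T^[k] y, fibre T d c k y 0)}

/-- In the fibre over `x`, the `k`-th iterate contracts the disc of radius `r` around `v` by the
factor `K * lam ^ k`. -/
def Contracts {B : Type} (T : B → B) (d : ℕ) (c : B → ℂ) (r K lam : ℝ) (x : B) (v : ℂ) (k : ℕ) :
    Prop :=
  ∀ z z', ‖z - v‖ < r → ‖z' - v‖ < r →
    ‖fibre T d c k x z - fibre T d c k x z'‖ ≤ K * lam ^ k * ‖z - z'‖

/-- Hyperbolicity over a general base: every point `p` of the closure of the post-critical set has a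
neighbourhood `W` of its base point such that in every fibre over `W` the disc of radius `r` around
`p.2` is contracted exponentially by all iterates, or by all iterates before some time from which on
it escapes to infinity exponentially fast. -/
def FiberHyperbolic {B : Type} [TopologicalSpace B] (T : B → B) (d : ℕ) (c : B → ℂ) : Prop :=
  ∃ r K lam : ℝ, 0 < r ∧ 0 < lam ∧ lam < 1 ∧
    ∀ p ∈ closure (postCritical T d c), ∃ W ∈ 𝓝 p.1, ∀ x ∈ W,
      (∀ k, Contracts T d c r K lam x p.2 k) ∨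
      ∃ k₀, (∀ k < k₀, Contracts T d c r K lam x p.2 k) ∧
        ∀ k z, ‖z - p.2‖ < r → 2 ^ k ≤ ‖fibre T d c (k₀ + k) x z‖

theorem orbit_eq (d : ℕ) (s : ℕ → ℂ) (k : ℕ) :
    orbit d s k = Pool.Agent.Y334.ST.orb d s k := by
  induction k with
  | zero => rfl
  | succ k ih => rw [orbit, ih, Pool.Agent.Y334.ST.orb]

theorem fibre_eq {B : Type} (T : B → B) (d : ℕ) (c : B → ℂ) (k : ℕ) (x : B) (z : ℂ) :
    fibre T d c k x z = Pool.Agent.Y334.FN.fib T (Pool.Agent.Y334.FU.uni d c) k x z := by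
  induction k with
  | zero => rfl
  | succ k ih =>
    rw [fibre, ih, Pool.Agent.Y334.FN.fib_succ, Pool.Agent.Y334.FU.uni_eval]

theorem escapes_iff {B : Type} (T : B → B) (d : ℕ) (c : B → ℂ) (x : B) :
    Escapes T d c x ↔ Pool.Agent.Y334.ST.EscF T (Pool.Agent.Y334.FU.uni d c) x 0 := by
  simp only [Escapes, Pool.Agent.Y334.ST.EscF, fibre_eq]

theorem turn_eq (d : ℕ) {n : ℕ} (c : ZMod n → ℂ) (i : ZMod n) :
    turn d c i = Pool.Agent.Y334.ST.ret d c i := by
  funext z
  exact fibre_eq _ _ _ _ _ _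

theorem turn_diff (d : ℕ) {n : ℕ} (c : ZMod n → ℂ) (i : ZMod n) :
    Differentiable ℂ (turn d c i) := by
  intro z
  rw [turn_eq]
  exact (Pool.Agent.Y334.ST.fib_hasDeriv i z n).differentiableAt

theorem att_iff (d : ℕ) {n : ℕ} (c : ZMod n → ℂ) (i : ZMod n) :
    (∃ m z, N62a1eb23.IsAttractingCycle (turn d c i) m z ∧
      Tendsto (fun k : ℕ => (turn d c i)^[m * k] 0) atTop (𝓝 z)) ↔
      Pool.Agent.Y334.ST.AttR d c i := by
  have hdiff := turn_diff d c i
  rw [turn_eq] at hdiff ⊢
  constructor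
  · rintro ⟨m, z, ⟨h1, h2, -, h4⟩, h5⟩
    exact ⟨m, z, h1, h2, h4, h5⟩
  · rintro ⟨m, z, h1, h2, h4, h5⟩
    exact ⟨m, z, ⟨h1, h2, (hdiff.iterate m) z, h4⟩, h5⟩

theorem fold_iff (d : ℕ) {n : ℕ} (c : ZMod n → ℂ) :
    HyperbolicFold d c ↔ ∀ i, Pool.Agent.Y334.ST.EscF (fun i : ZMod n => i + 1)
      (Pool.Agent.Y334.FU.uni d c) i 0 ∨ Pool.Agent.Y334.ST.AttR d c i := by
  simp only [HyperbolicFold, escapes_iff, att_iff]
  rfl

theorem hyp_iff {B : Type} [TopologicalSpace B] (T : B → B) {d : ℕ} (hd : 2 ≤ d) (c : B → ℂ) :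
    FiberHyperbolic T d c ↔ ∃ r K lam : ℝ, 0 < r ∧ 0 < lam ∧ lam < 1 ∧
      Pool.Agent.Y334.FN.HypP T (Pool.Agent.Y334.FU.uni d c) r K lam := by
  have hPC : postCritical T d c =
      Pool.Agent.Y334.FN.PCp T (Pool.Agent.Y334.FU.uni d c) := by
    ext p
    constructor
    · rintro ⟨y, k, h1, h3⟩
      exact ⟨y, 0, k, h1, (Pool.Agent.Y334.FU.uni_crit hd y 0).2 rfl, by rw [h3, fibre_eq]⟩
    · rintro ⟨y, z, k, h1, h2, h3⟩
      rw [Pool.Agent.Y334.FU.uni_crit hd] at h2
      subst h2
      exact ⟨y, k, h1, by rw [h3, fibre_eq]⟩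
  unfold FiberHyperbolic Pool.Agent.Y334.FN.HypP
  rw [hPC]
  simp only [Contracts, Pool.Agent.Y334.FN.Con, fibre_eq]

theorem esc_iff (d : ℕ) (c : ℂ) : c ∈ N62a1eb23.multibrotSet d ↔ ¬ Pool.Agent.Y334.FU.EscU d c := by
  unfold N62a1eb23.multibrotSet Pool.Agent.Y334.FU.EscU
  rw [Set.mem_ofPred_eq, tendsto_norm_atTop_iff_cobounded]
  rfl

theorem attracting_iff (d : ℕ) (c : ℂ) :
    c ∈ attracting d ↔ ∃ z k, Pool.Agent.Y334.FU.AttU d c z k := by
  constructor
  · rintro ⟨m, z, h1, h2, -, h4⟩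
    exact ⟨z, m, h1, h2, h4⟩
  · rintro ⟨z, m, h1, h2, h4⟩
    exact ⟨m, z, h1, h2, (Pool.Agent.Y334.FU.fm_diff d c).iterate m z, h4⟩

/-- **Non-hyperbolic points of Multibrot sets.** Let `d ≥ 2`, let `M_d` be the Multibrot set and `H_d`
the set of parameters with an attracting cycle.

(I) `M_d ⊆ closure H_d` (Q1 for the exponent `d`) if and only if every interior point of `M_d` is in
`H_d`.

(II) If `c` is in `H_d`, then the orbit of `0` does not escape for any sequence of parameters close to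
`c`. There is a constant `C` such that for every `c` in `M_d` outside `H_d` and all `n ≥ 2` the orbit
of `0` escapes for some sequence of parameters of period `n` within `C * log n / n` of `c`.

(III) There is a constant `C` such that for all `n ≥ 2` every point `c` of the Multibrot set of the
`n`-fold compositions of maps `z ^ d + c i` which is not hyperbolic is at distance at most
`C * log n / n` from the complement of this set.

(IV) More generally, given `R` there is `C` such that for all `n ≥ 2` and every non-hyperbolic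
sequence `c` of period `n` bounded by `R` the set of the `i` for which the critical orbit starting at
the time `i` escapes is changed by a change of `c` of size at most `C * log n / n`.

(V) Over a continuous map `T` without periodic points of a normal Hausdorff space (the
limit `n = ∞`) a bounded continuous `c` in the Multibrot set is hyperbolic if and only if it is an
interior point of the Multibrot set, for the uniform distance of continuous functions. -/
theorem result (d : ℕ) (hd : 2 ≤ d) :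
    -- (I)
    (N62a1eb23.multibrotSet d ⊆ closure (attracting d) ↔
      interior (N62a1eb23.multibrotSet d) ⊆ attracting d) ∧
    -- (II)
    ((∀ c ∈ attracting d, ∃ ε : ℝ, 0 < ε ∧ ∀ s : ℕ → ℂ, (∀ i, ‖s i - c‖ < ε) →
        ¬ Tendsto (fun k => ‖orbit d s k‖) atTop atTop) ∧
      ∃ C : ℝ, 0 < C ∧ ∀ c ∈ N62a1eb23.multibrotSet d, c ∉ attracting d → ∀ n : ℕ, 2 ≤ n →
        ∃ s : ℕ → ℂ, (∀ i, s (i + n) = s i) ∧ (∀ i, ‖s i - c‖ ≤ C * Real.log n / n) ∧
          Tendsto (fun k => ‖orbit d s k‖) atTop atTop) ∧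
    -- (III)
    (∃ C : ℝ, 0 < C ∧ ∀ n : ℕ, 2 ≤ n → ∀ c ∈ Multibrot (rot n) d, ¬ HyperbolicFold d c →
      ∃ c' : ZMod n → ℂ, c' ∉ Multibrot (rot n) d ∧ ∀ i, ‖c' i - c i‖ ≤ C * Real.log n / n) ∧
    -- (IV)
    (∀ R : ℝ, ∃ C : ℝ, 0 < C ∧ ∀ n : ℕ, 2 ≤ n → ∀ c : ZMod n → ℂ, (∀ i, ‖c i‖ ≤ R) →
      ¬ HyperbolicFold d c → ∃ c' : ZMod n → ℂ, (∀ i, ‖c' i - c i‖ ≤ C * Real.log n / n) ∧
        ∃ i, ¬ (Escapes (rot n) d c' i ↔ Escapes (rot n) d c i)) ∧
    -- (V)
    (∀ (B : Type) [TopologicalSpace B] [NormalSpace B] [T2Space B] (T : B → B), Continuous T →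
      (∀ x : B, ∀ k : ℕ, 1 ≤ k → T^[k] x ≠ x) →
      ∀ c ∈ Multibrot T d, Continuous c → (∃ R : ℝ, ∀ x, ‖c x‖ ≤ R) →
        (FiberHyperbolic T d c ↔ ∃ ε : ℝ, 0 < ε ∧ ∀ c' : B → ℂ, Continuous c' →
          (∀ x, ‖c' x - c x‖ < ε) → c' ∈ Multibrot T d)) := by
  refine ⟨?_, ⟨?_, ?_⟩, ?_, ?_, ?_⟩
  · have h := Pool.Agent.Y334.FU.int_iff hd
    constructor
    · intro h1 c hc
      rw [attracting_iff]
      refine h.1 ?_ c ?_
      · intro c hc ε hε
        obtain ⟨c', h2, h3⟩ := Metric.mem_closure_iff.1 (h1 ((esc_iff d c).2 hc)) ε hε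
        rw [attracting_iff] at h2
        exact ⟨c', by rw [dist_comm]; exact h3, h2⟩
      · obtain ⟨ε, hε, h2⟩ := Metric.isOpen_iff.1 isOpen_interior c hc
        exact ⟨ε, hε, fun c' hc' => (esc_iff d c').1
          (interior_subset (h2 (mem_ball_iff_norm.2 hc')))⟩
    · intro h1 c hc
      rw [Metric.mem_closure_iff]
      intro ε hε
      obtain ⟨c', h2, h3⟩ := h.2 (fun c ⟨ε, hε, h2⟩ => by
        rw [← attracting_iff]
        apply h1
        rw [mem_interior_iff_mem_nhds]
        refine Filter.mem_of_superset (Metric.ball_mem_nhds c hε) fun c' hc' => ?_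
        exact (esc_iff d c').2 (h2 c' (mem_ball_iff_norm.1 hc'))) c ((esc_iff d c).1 hc) ε hε
      exact ⟨c', (attracting_iff d c').2 h3, by rw [dist_comm]; exact h2⟩
  · intro c hc
    obtain ⟨z, k, h1⟩ := (attracting_iff d c).1 hc
    simp only [orbit_eq]
    exact Pool.Agent.Y334.ST.att_bounded hd h1
  · obtain ⟨C, hC, h⟩ := Pool.Agent.Y334.ST.per_escape hd
    refine ⟨C, hC, fun c hc hno n hn => ?_⟩
    simp only [orbit_eq]
    exact h n hn c ((esc_iff d c).1 hc) fun h1 => hno ((attracting_iff d c).2 h1)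
  · obtain ⟨C, hC, h⟩ := Pool.Agent.Y334.ST.fold_bdry hd
    refine ⟨C, hC, fun n hn c hc hnh => ?_⟩
    have hc' : ∀ i, ¬ Pool.Agent.Y334.ST.EscF (fun i : ZMod n => i + 1)
        (Pool.Agent.Y334.FU.uni d c) i 0 := fun i h1 => hc i ((escapes_iff _ _ _ _).2 h1)
    rw [fold_iff] at hnh
    obtain ⟨c', h1, i, h2⟩ := h n hn c hc' fun h3 => hnh fun i => Or.inr (h3 i)
    exact ⟨c', fun h3 => h3 i ((escapes_iff _ _ _ _).2 h2), h1⟩
  · intro R
    obtain ⟨C, hC, h⟩ := Pool.Agent.Y334.ST.fold_rate hd R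
    refine ⟨C, hC, fun n hn c hR hnh => ?_⟩
    rw [fold_iff] at hnh
    obtain ⟨c', h1, i, h2⟩ := h n hn c hR hnh
    refine ⟨c', h1, i, ?_⟩
    rw [escapes_iff, escapes_iff]
    exact h2
  · rintro B _ _ _ T hTc hT c hc hcc ⟨R, hR⟩
    rw [hyp_iff T hd]
    simp only [Multibrot, Set.mem_ofPred_eq, escapes_iff] at hc ⊢
    exact Pool.Agent.Y334.ST.int_aper hd hTc hT hcc hR hc

end Pool.Agent.Results.MP_c35c17_an.PeriodicInstability
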